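import Mathlib
import Pool.Agent.R889.Tri.Part

/-!
# A three-colour Ramsey variant of a Nešetřil–Rödl theorem

For all `k ≥ ℓ ≥ 3` there is a finite graph `G` with `G ↛ (K_k, K_ℓ)` and
`G → (K_{k-1}, K_{k-1}, K_ℓ)`.

`G` is the union of the red and the blue graph of a system in which there is no red `K_k` and no
blue `K_ℓ`, obtained by the partite construction (both types of edges are coloured).
-/

set_option autoImplicit false

namespace Pool.Agent.Results.MP_6ce170_co.ThreeColourVariant

/-- `G → (K_{a 0}, …, K_{a (r-1)})`: for every colouring `c` of the edges with the colours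
`0, …, r-1` there are a colour `i` and a clique on `a i` vertices all of whose edges have
colour `i`. -/
def Arrows {V : Type} (G : SimpleGraph V) {r : ℕ} (a : Fin r → ℕ) : Prop :=
  ∀ c : G.edgeSet → Fin r, ∃ (i : Fin r) (s : Finset V), G.IsNClique (a i) s ∧
    ∀ e : G.edgeSet, (∀ x ∈ (e : Sym2 V), x ∈ s) → c e = i

/-- the red and the blue graph of the starting structure -/
def T (k m : ℕ) (u : Bool) : SimpleGraph (Fin m) where
  Adj i j := i ≠ j ∧ if u then i.val < k ∧ j.val < k ∧ ¬ (i.val ≤ 1 ∧ j.val ≤ 1)
    else (i.val ≤ 1 ∧ j.val ≤ 1) ∨ (k ≤ i.val ∧ k ≤ j.val)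
  symm := ⟨by
    rintro i j ⟨h, h'⟩
    refine ⟨h.symm, ?_⟩
    cases u
    · simp only [Bool.false_eq_true, if_false] at h' ⊢
      tauto
    · simp only [if_true] at h' ⊢
      tauto⟩
  loopless := ⟨fun i h => h.1 rfl⟩

lemma T_true {k m : ℕ} {i j : Fin m} : (T k m true).Adj i j ↔
    i ≠ j ∧ i.val < k ∧ j.val < k ∧ ¬ (i.val ≤ 1 ∧ j.val ≤ 1) := by
  simp [T]

lemma T_false {k m : ℕ} {i j : Fin m} : (T k m false).Adj i j ↔
    i ≠ j ∧ ((i.val ≤ 1 ∧ j.val ≤ 1) ∨ (k ≤ i.val ∧ k ≤ j.val)) := by
  simp [T]

lemma T_disj {k m : ℕ} (hk : 3 ≤ k) (u v : Bool) (x y : Fin m) (h : (T k m u).Adj x y)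
    (h' : (T k m v).Adj x y) : u = v := by
  cases u <;> cases v
  · rfl
  · rw [T_false] at h
    rw [T_true] at h'
    omega
  · rw [T_true] at h
    rw [T_false] at h'
    omega
  · rfl

lemma red_free {k m : ℕ} (hk : 3 ≤ k) : (T k m true).CliqueFree k := by
  classical
  intro s hs
  have hcl := hs.isClique
  have hcard := hs.card_eq
  have hlt : ∀ i ∈ s, i.val < k := by
    intro i hi
    obtain ⟨j, hj, hji⟩ := Finset.exists_mem_ne (s := s) (by omega) i
    have := T_true.1 (hcl hi hj hji.symm)
    exact this.2.1
  have himg : s.image Fin.val ⊆ (Finset.range k) := by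
    intro x hx
    obtain ⟨i, hi, rfl⟩ := Finset.mem_image.1 hx
    exact Finset.mem_range.2 (hlt i hi)
  have hc : (s.image Fin.val).card = k := by
    rw [Finset.card_image_of_injective _ Fin.val_injective, hcard]
  have heq : s.image Fin.val = Finset.range k :=
    Finset.eq_of_subset_of_card_le himg (by rw [hc, Finset.card_range])
  have h0 : 0 ∈ s.image Fin.val := by rw [heq]; simp; omega
  have h1 : 1 ∈ s.image Fin.val := by rw [heq]; simp; omega
  obtain ⟨i, hi, hi0⟩ := Finset.mem_image.1 h0
  obtain ⟨j, hj, hj0⟩ := Finset.mem_image.1 h1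
  have hne : i ≠ j := by rintro rfl; omega
  have := T_true.1 (hcl hi hj hne)
  omega

lemma blue_free {k l : ℕ} (hl : 3 ≤ l) : (T k (k + (l - 1)) false).CliqueFree l := by
  classical
  intro s hs
  have hcl := hs.isClique
  have hcard := hs.card_eq
  by_cases hex : ∃ i ∈ s, i.val < k
  · obtain ⟨i, hi, hik⟩ := hex
    have hall : ∀ j ∈ s, j.val ≤ 1 := by
      intro j hj
      by_cases hji : j = i
      · subst hji
        obtain ⟨j', hj', hne⟩ := Finset.exists_mem_ne (s := s) (by omega) j
        have := T_false.1 (hcl hj hj' hne.symm)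
        omega
      · have := T_false.1 (hcl hi hj (Ne.symm hji))
        omega
    have himg : s.image Fin.val ⊆ (Finset.range 2) := by
      intro x hx
      obtain ⟨j, hj, rfl⟩ := Finset.mem_image.1 hx
      exact Finset.mem_range.2 (by have := hall j hj; omega)
    have hc := Finset.card_le_card himg
    rw [Finset.card_image_of_injective _ Fin.val_injective, hcard, Finset.card_range] at hc
    omega
  · push Not at hex
    have himg : s.image Fin.val ⊆ (Finset.Ico k (k + (l - 1))) := by
      intro x hx
      obtain ⟨j, hj, rfl⟩ := Finset.mem_image.1 hx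
      exact Finset.mem_Ico.2 ⟨hex j hj, j.isLt⟩
    have hc := Finset.card_le_card himg
    rw [Finset.card_image_of_injective _ Fin.val_injective, hcard, Nat.card_Ico] at hc
    omega

theorem result (k l : ℕ) (hl : 3 ≤ l) (hlk : l ≤ k) :
    ∃ (V : Type) (_ : Finite V) (G : SimpleGraph V),
      ¬ Arrows G ![k, l] ∧ Arrows G ![k - 1, k - 1, l] := by
  classical
  obtain ⟨X, hX, Γ, hdisj, hfree, hram⟩ := R889.Tri.twoTypes (T k (k + (l - 1)))
    (T_disj (by omega)) (fun u => if u then k - 1 else l - 1)
    (by intro u; cases u <;> simp <;> omega)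
    (by
      intro u
      cases u
      · have h := blue_free (k := k) hl
        have e : (if false = true then k - 1 else l - 1) + 1 = l := by simp; omega
        rw [e]
        exact h
      · have h := red_free (m := k + (l - 1)) (k := k) (by omega)
        have e : (if true = true then k - 1 else l - 1) + 1 = k := by simp; omega
        rw [e]
        exact h)
    (Fin 3)
  have hred : (Γ true).CliqueFree k := by
    have := hfree true
    have e : (if true = true then k - 1 else l - 1) + 1 = k := by simp; omega
    rwa [e] at this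
  have hblue : (Γ false).CliqueFree l := by
    have := hfree false
    have e : (if false = true then k - 1 else l - 1) + 1 = l := by simp; omega
    rwa [e] at this
  let G : SimpleGraph X := Γ true ⊔ Γ false
  have hG : ∀ x y, G.Adj x y ↔ (Γ true).Adj x y ∨ (Γ false).Adj x y := fun x y => by
    simp [G, SimpleGraph.sup_adj]
  refine ⟨X, hX, G, ?_, ?_⟩
  · intro h
    obtain ⟨i, s, hs, hc⟩ := h (fun e => if (e : Sym2 X) ∈ (Γ true).edgeSet then 0 else 1)
    have hpair : ∀ x ∈ s, ∀ y ∈ s, x ≠ y → G.Adj x y := fun x hx y hy hne =>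
      hs.isClique hx hy hne
    fin_cases i
    · apply hred s
      refine ⟨fun x hx y hy hne => ?_, by simpa using hs.card_eq⟩
      have h1 := hpair x hx y hy hne
      have h2 := hc ⟨s(x, y), h1⟩ (by
        intro z hz
        rcases Sym2.mem_iff.1 hz with rfl | rfl
        · exact hx
        · exact hy)
      by_contra hcon
      simp [hcon] at h2
    · apply hblue s
      refine ⟨fun x hx y hy hne => ?_, by simpa using hs.card_eq⟩
      have h1 := hpair x hx y hy hne
      have h2 := hc ⟨s(x, y), h1⟩ (by
        intro z hz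
        rcases Sym2.mem_iff.1 hz with rfl | rfl
        · exact hx
        · exact hy)
      rcases (hG x y).1 h1 with h3 | h3
      · simp [h3] at h2
      · exact h3
  · intro c
    obtain ⟨e, col, he⟩ := hram (fun x y => if h : G.Adj x y then c ⟨s(x, y), h⟩ else 0)
    -- cliques on intervals of indices
    have hint : ∀ (off t : ℕ) (ht : off + t ≤ k + (l - 1)) (i : Fin 3),
        (∀ a b : Fin (k + (l - 1)), a < b → off ≤ a.val → b.val < off + t →
          ∃ u, (T k (k + (l - 1)) u).Adj a b ∧ col u = i) →
        ∃ s : Finset X, G.IsNClique t s ∧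
          ∀ d : G.edgeSet, (∀ x ∈ (d : Sym2 X), x ∈ s) → c d = i := by
      intro off t ht i h
      let g : Fin t → X := fun j => e ⟨off + j.val, by have := j.isLt; omega⟩
      have hlt : ∀ p q : Fin t, p < q → ∃ hadj : G.Adj (g p) (g q),
          c ⟨s(g p, g q), hadj⟩ = i := by
        intro p q hpq
        have hp := p.isLt
        have hq := q.isLt
        have hpq' : p.val < q.val := hpq
        obtain ⟨u, h1, h2⟩ := h ⟨off + p.val, by omega⟩ ⟨off + q.val, by omega⟩
          (by rw [Fin.lt_def]; simp only; omega) (by simp only; omega) (by simp only; omega)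
        obtain ⟨h3, h4⟩ := he ⟨off + p.val, by omega⟩ ⟨off + q.val, by omega⟩
          (by rw [Fin.lt_def]; simp only; omega) u h1
        have hadj : G.Adj (g p) (g q) := by
          rw [hG]
          cases u
          · exact Or.inr h3
          · exact Or.inl h3
        refine ⟨hadj, ?_⟩
        have h5 : G.Adj (e ⟨off + p.val, by omega⟩) (e ⟨off + q.val, by omega⟩) := hadj
        rw [dif_pos h5, h2] at h4
        exact h4
      have hne : ∀ p q : Fin t, p ≠ q → ∃ hadj : G.Adj (g p) (g q),
          c ⟨s(g p, g q), hadj⟩ = i := by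
        intro p q hpq
        rcases lt_or_gt_of_ne hpq with h1 | h1
        · exact hlt p q h1
        · obtain ⟨hadj, hc⟩ := hlt q p h1
          refine ⟨hadj.symm, ?_⟩
          rw [← hc]
          congr 1
          exact Subtype.ext Sym2.eq_swap
      have hinj : Function.Injective g := by
        intro p q hpq
        by_contra hcon
        obtain ⟨hadj, -⟩ := hne p q hcon
        exact hadj.ne hpq
      refine ⟨Finset.univ.image g, ⟨?_, ?_⟩, ?_⟩
      · intro x hx y hy hxy
        simp only [Finset.coe_image, Finset.coe_univ, Set.image_univ, Set.mem_range] at hx hy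
        obtain ⟨p, rfl⟩ := hx
        obtain ⟨q, rfl⟩ := hy
        exact (hne p q (fun h => hxy (by rw [h]))).1
      · rw [Finset.card_image_of_injective _ hinj, Finset.card_univ, Fintype.card_fin]
      · rintro ⟨d, hd⟩ hmem
        induction d using Sym2.ind with
        | _ x y =>
          have hx := hmem x (by simp)
          have hy := hmem y (by simp)
          simp only [Finset.mem_image, Finset.mem_univ, true_and] at hx hy
          obtain ⟨p, rfl⟩ := hx
          obtain ⟨q, rfl⟩ := hy
          have hpq : p ≠ q := by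
            rintro rfl
            exact ((SimpleGraph.mem_edgeSet G).1 hd).ne rfl
          exact (hne p q hpq).2
    have hcases : col true = 0 ∨ col true = 1 ∨ col true = 2 := by
      generalize col true = z
      fin_cases z <;> simp
    rcases hcases with h0 | h1 | h2
    · obtain ⟨s, hs, hcs⟩ := hint 1 (k - 1) (by omega) 0 (by
        intro a b hab ha hb
        have hab' : a.val < b.val := hab
        refine ⟨true, T_true.2 ⟨hab.ne, by omega, by omega, by omega⟩, h0⟩)
      exact ⟨0, s, by simpa using hs, hcs⟩
    · obtain ⟨s, hs, hcs⟩ := hint 1 (k - 1) (by omega) 1 (by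
        intro a b hab ha hb
        have hab' : a.val < b.val := hab
        refine ⟨true, T_true.2 ⟨hab.ne, by omega, by omega, by omega⟩, h1⟩)
      exact ⟨1, s, by simpa using hs, hcs⟩
    · rcases hlk.lt_or_eq with hlt | heq
      · obtain ⟨s, hs, hcs⟩ := hint 1 l (by omega) 2 (by
          intro a b hab ha hb
          have hab' : a.val < b.val := hab
          refine ⟨true, T_true.2 ⟨hab.ne, by omega, by omega, by omega⟩, h2⟩)
        exact ⟨2, s, by simpa using hs, hcs⟩
      · have hblueK : ∀ i : Fin 3, col false = i → ∃ s : Finset X, G.IsNClique (k - 1) s ∧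
            ∀ d : G.edgeSet, (∀ x ∈ (d : Sym2 X), x ∈ s) → c d = i := by
          intro i hi
          apply hint k (k - 1) (by omega) i
          intro a b hab ha hb
          refine ⟨false, T_false.2 ⟨hab.ne, Or.inr ⟨ha, ?_⟩⟩, hi⟩
          have hab' : a.val < b.val := hab
          omega
        have hcases' : col false = 0 ∨ col false = 1 ∨ col false = 2 := by
          generalize col false = z
          fin_cases z <;> simp
        rcases hcases' with h3 | h3 | h3
        · obtain ⟨s, hs, hcs⟩ := hblueK 0 h3
          exact ⟨0, s, by simpa using hs, hcs⟩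
        · obtain ⟨s, hs, hcs⟩ := hblueK 1 h3
          exact ⟨1, s, by simpa using hs, hcs⟩
        · obtain ⟨s, hs, hcs⟩ := hint 0 k (by omega) 2 (by
            intro a b hab ha hb
            have hab' : a.val < b.val := hab
            by_cases hb1 : b.val ≤ 1
            · exact ⟨false, T_false.2 ⟨hab.ne, Or.inl ⟨by omega, hb1⟩⟩, h3⟩
            · exact ⟨true, T_true.2 ⟨hab.ne, by omega, by omega, by omega⟩, h2⟩)
          refine ⟨2, s, ?_, hcs⟩
          have : G.IsNClique l s := by rw [heq]; exact hs
          simpa using this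

end Pool.Agent.Results.MP_6ce170_co.ThreeColourVariant
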